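import Pool.Agent.V1157.KL.LcB

/-!
# Kodaira dimension `-∞` and pseudo-effectivity for fibrations in moving log canonical arrangements
over varieties of log general type

Let `V` be any variety of dimension `p` with the function field `K0`, `y 0, …, y n` nonzero rational
functions on `V` whose ratios define a generically finite map of `V` to projective space, and `B` any
set of prime divisors over `V`, such that the complement of `B` and of the zeros and poles of the
ratios `y i / y j` is of log general type; there is no condition on the singularities of these
divisors, and `V` itself may have Kodaira dimension `-∞`, for instance `V = ℙ^p`. There is a number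
`μ` which depends only on these data, such that the conclusion below holds for all
projective pairs `(X, Δ)` (for instance projective manifolds, `Δ = 0`), `X` a normal variety of any
dimension, `Δ` an effective `ℚ`-divisor, with a dominant rational map `X ⇢ V`, with the following
properties:

* (the base) for every prime divisor `P` of `X` which does not dominate `V`, with the coefficient
  `Δ_P`: either the orders of two of the functions `y i` along `P` differ by at least `μ (1 - Δ_P)`,
  or all `y i` have the same order along `P`, and the ramification index of `P` over `V` is at least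
  `2 (1 - Δ_P)` if `P` lies over a prime divisor in `B`;
* (the fibres) there is a correspondence between `X` and a relative product of projective spaces over
  `V`: a variety `X'` with a generically finite map `X' ⇢ X` (any finite extension `K'` of the function
  field `K`, ramified anywhere) and a generically finite map over `V` of `X'` to
  `V' × P^{r_1} × ... × P^{r_c}`, `r_j ≥ 1`, `V'` finite over `V`, and in each `P^{r_j}` there are any
  hyperplanes `A j i = 0` which move with the point of `V'`, with weights `w j i` in `[0, 1]` such that
  the arrangement is log canonical: the sum of the weights of hyperplanes with a common point is at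
  most the codimension of their intersection; such that over the generic point of `V` the pull backs to
  `X'` of `K_X + Δ` and of `K + ∑ w j i (A j i = 0)` are comparable: if `Q` is a place of `K'` over a
  prime divisor `P` of `X` which dominates `V`, with ramification index `ε`, and `e j i` are the
  multiplicities of the hyperplanes at `Q`, then `ε (1 - Δ_P)` is at most
  `∑ (mx_j - ∑ w j i e j i)`, where `mx_j` is the greatest sum of `r_j + 1` of the `e j i` whose
  hyperplanes have no common point (at most `1`, if all `e j i` are zero); and if `Q` is a place of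
  `K'` over a prime divisor of `P^{r_1} × ... × P^{r_c}` over `V`, with ramification index `ρ`, and
  over the place `P` of `K`, with ramification index `ε`, then `ρ - ε α ≤ ∑ w j i e j i`, where `α` is
  the log discrepancy of `(X, Δ)` along `P`.

Then `κ(K_X + Δ) = -∞` if and only if `K_X + Δ` is not pseudo-effective (its numerical dimension
with respect to any effective divisor is `-∞`), if and only if `∑ i, w j i < r_j + 1` for some `j`; and
otherwise `κ = ν = p + l`, where `l` is the sum of the `r_j` with `∑ i, w j i > r_j + 1`. For a
projective manifold `X` and `Δ = 0` the canonical bundle is not pseudo-effective if and only if `X` has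
a Gauduchon metric of positive total scalar curvature (this known theorem is not part of the formal
proof), so that the first equivalence is a positive answer to the question for these `X`. The earlier
result of this type in the repository (`MP_23b606_ag.LogCanonicalArrangements`) has a base with many
hyperplane sections in general position; here the base is any variety of log general type.

The generic fibre may for instance be a cover which is ramified over such an arrangement, or a
quotient by a finite group of a product of such covers; the moduli of the fibres and the monodromy over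
`V` may be arbitrary.

The language and the definitions of `Pool.Agent.Y172` are used: `X` is given by the homogeneous
coordinates `x` of its generic point, with values in the function field `K` of `X`; the prime divisors
of `X` are places `P` of `K`, `P.ord` is the order along `P`. Along a place of `K'` the multiplicities
`e j i` are the orders of the forms `∑ k, A j i k * u j k` of the hyperplanes at the point with the
affine coordinates `u ⟨j, k⟩`, relative to the order of the point (`MOrd`).

Proof: the sections of `m (K_X + Δ)` are products of the pull backs of pluricanonical forms of the base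
(`Base`, `Comb`) and of norms to `K` of products of determinants of logarithmic derivatives of the
linear forms along the fibres of `X'` (`lc_low`); the upper bound is `lc_ab`.
-/

set_option autoImplicit false

open FF Pool.Agent.W602.GT Pool.Agent.Y172 Pool.Agent.Y191 Pool.Agent.V1157.KL

namespace Pool.Agent.Results.MP_23b606_ag.ArrangementFibres

section

variable {K : Type} [Field K] [Algebra ℂ K] {N : ℕ}

/-- `X` is a normal projective variety of dimension `n`, where `x` is the generic point of `X`, and
`Δ` is an effective `ℚ`-divisor on `X`. -/
def IsPair (x : Fin (N + 1) → K) (n : ℕ) (Δ : Place ℂ K → ℚ) : Prop :=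
  NormalModel x ∧ Algebra.trdeg ℂ K = n ∧ Effective x Δ

/-- The prime divisors of `X` dominate the variety `V` with the function field `K0`, or satisfy the
condition on the multiplicities. -/
def HighOver (K0 : Type) [Field K0] [Algebra ℂ K0] [Algebra K0 K] {n : ℕ} (y : Fin (n + 1) → K0)
    (B : Place ℂ K0 → Prop) (μ : ℕ) (x : Fin (N + 1) → K) (Δ : Place ℂ K → ℚ) : Prop :=
  ∀ P, IsPrimeDivisor x P → (∀ g : K0, P.ord (algebraMap K0 K g) = 0) ∨ Mult y B μ P (Δ P)

/-- There is a finite extension `K'` of `K`, and the `u ⟨j, k⟩` are the affine coordinates of a
generically finite map, over the variety with the function field `L`, of a variety with the function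
field `K'` to a product of projective spaces of dimensions `r j ≥ 1`; `A j i` are the coefficients of
hyperplanes, algebraic over `L`, with weights `w j i` in `[0, 1]` such that the arrangement is log
canonical (`LcArr`). The multiplicities are bounded at the places over the prime divisors of `X`
which are trivial on `L` (`LcHor`) and at the places over the prime divisors of the product
(`Cor`). -/
def Fibres (x : Fin (N + 1) → K) (n : ℕ) (Δ : Place ℂ K → ℚ) (L : IntermediateField ℂ K) {c : ℕ}
    (r s : Fin c → ℕ) (w : ∀ j, Fin (s j) → ℚ) : Prop :=
  (∀ j, 1 ≤ r j ∧ ∀ i, 0 ≤ w j i ∧ w j i ≤ 1) ∧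
  ∃ (K' : Type) (_ : Field K') (_ : Algebra ℂ K') (_ : Algebra K K') (_ : IsScalarTower ℂ K K')
    (_ : FiniteDimensional K K') (A : ∀ j, Fin (s j) → Fin (r j + 1) → K')
    (u : (Σ j, Fin (r j)) → K'),
    LcArr (upF K' L) A w ∧ IsTranscendenceBasis (upF K' L) u ∧
    LcHor L A u w {P | IsPrimeDivisor x P} (fun P => (Δ P : ℝ)) ∧ Cor x n Δ (upF K' L) A u w

/-- the sum of the dimensions `r j` for which the sum of the weights is greater than `r j + 1` -/
def big {c : ℕ} (r s : Fin c → ℕ) (w : ∀ j, Fin (s j) → ℚ) : ℕ :=
  ∑ j, if (r j + 1 : ℚ) < ∑ i, w j i then r j else 0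

/-- The Kodaira dimension of `K_X + Δ` is `-∞` if and only if its numerical dimension with respect to
all effective divisors is `-∞`, if and only if the sum of the weights is less than `r j + 1` for some
`j`; otherwise the Kodaira dimension and the numerical dimension (with respect to any effective
integral divisor `A`) of `K_X + Δ` are `p + big`. -/
def KodairaNeg (x : Fin (N + 1) → K) (n : ℕ) (Δ : Place ℂ K → ℚ) (p : ℕ) {c : ℕ}
    (r s : Fin c → ℕ) (w : ∀ j, Fin (s j) → ℚ) : Prop :=
  [kodairaDim x n Δ = ⊥, ∀ A, Effective x A → numericalDim x n Δ A = ⊥,
    ∃ j, ∑ i, w j i < (r j + 1 : ℚ)].TFAE ∧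
  (kodairaDim x n Δ ≠ ⊥ → kodairaDim x n Δ = ((p + big r s w : ℕ) : WithBot ℕ) ∧
    ∀ A, Effective x A → Integral x A → numericalDim x n Δ A = ((p + big r s w : ℕ) : EReal))

end

theorem exists_idx {c : ℕ} (r q : Fin c → ℕ) (w : ∀ j, Fin (q j) → ℚ) :
    ∃ κ : Fin (big r q w) → Σ j, Fin (r j), Function.Injective κ ∧
      ∀ i, (r (κ i).1 + 1 : ℚ) < ∑ i', w (κ i).1 i' := by
  classical
  have h1 : Fintype.card {x : Σ j, Fin (r j) // (r x.1 + 1 : ℚ) < ∑ i, w x.1 i} = big r q w := by
    rw [Fintype.card_subtype, Finset.card_filter, Fintype.sum_sigma]
    refine Finset.sum_congr rfl fun j _ => ?_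
    change ∑ _k : Fin (r j), (if (r j + 1 : ℚ) < ∑ i, w j i then 1 else 0) = _
    rw [Finset.sum_const, Finset.card_univ, Fintype.card_fin, smul_eq_mul, mul_ite, mul_one,
      mul_zero]
  let φ := Fintype.equivFinOfCardEq h1
  exact ⟨fun i => (φ.symm i : Σ j, Fin (r j)), fun a b hab => φ.symm.injective (Subtype.ext hab),
    fun i => (φ.symm i).2⟩

/-- Let `K0` be the function field of a variety `V` of dimension `p`, let `y i` be
nonzero elements of `K0` such that `K0` is algebraic over the field generated by their ratios, and let
`B` be a set of places, such that the complement in `V` of the prime divisors in `B` and of the zeros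
and poles of the ratios is of log general type. Then there is a number `μ` such that for all projective
pairs `(X, Δ)` of dimension `p + ∑ j, r j`, with a dominant rational map `X ⇢ V`, such that the prime
divisors of `X` dominate `V` or satisfy the condition on the multiplicities (`HighOver`), and fibres
as in `Fibres`: `κ(K_X + Δ) = -∞` if and only if `K_X + Δ` is not pseudo-effective, if and only if
`∑ i, w j i < r j + 1` for some `j`; and otherwise `κ(K_X + Δ) = ν(K_X + Δ)` is `p` plus the sum of the
`r j` with `r j + 1 < ∑ i, w j i`. -/
theorem result (K0 : Type) [Field K0] [Algebra ℂ K0] [Algebra.EssFiniteType ℂ K0] (n p : ℕ)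
    (y : Fin (n + 1) → K0) (B : Place ℂ K0 → Prop) (hy : ∀ i, y i ≠ 0)
    (halg : ∀ z : K0, IsAlgebraic (IntermediateField.adjoin ℂ (Set.range fun i => y i / y 0)) z)
    (hgt : LogGeneralType ℂ K0 p (fun P => (∃ i, P.ord (y i) ≠ P.ord (y 0)) ∨ B P)) :
    ∃ μ : ℕ, ∀ (K : Type) [Field K] [Algebra ℂ K] [Algebra K0 K] [IsScalarTower ℂ K0 K]
      (N c : ℕ) (r s : Fin c → ℕ) (x : Fin (N + 1) → K) (Δ : Place ℂ K → ℚ),
      IsPair x (p + ∑ j, r j) Δ → HighOver K0 y B μ x Δ →
      ∀ w : ∀ j, Fin (s j) → ℚ, Fibres x (p + ∑ j, r j) Δ (img K0 K) r s w →
      KodairaNeg x (p + ∑ j, r j) Δ p r s w := by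
  obtain ⟨μ, hμ⟩ := lc_lgt K0 n p y B hy halg hgt
  refine ⟨μ, ?_⟩
  rintro K _ _ _ _ N c r s x Δ ⟨hx, hn, hΔ⟩ hH w ⟨hw, K', _, _, _, _, _, A, u, hA, hu, h1, hC⟩
  obtain ⟨h2, h3⟩ := hμ K N c r s x Δ hx hn hΔ hH w hw K' A u hA hu h1 hC
  have h4 : (∀ j, (r j + 1 : ℚ) ≤ ∑ i, w j i) →
      kodairaDim x (p + ∑ j, r j) Δ = ((p + big r s w : ℕ) : WithBot ℕ) ∧
      ∀ A, Effective x A → Integral x A →
        numericalDim x (p + ∑ j, r j) Δ A = ((p + big r s w : ℕ) : EReal) := by
    intro h
    refine h3 (big r s w) h ?_ (exists_idx r s w)
    rw [big, ← Finset.sum_add_distrib]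
    refine Finset.sum_congr rfl fun j _ => ?_
    rcases lt_or_eq_of_le (h j) with h4 | h4
    · rw [if_pos h4, if_neg h4.ne', add_zero]
    · rw [if_neg (not_lt.2 h4.symm.le), if_pos h4.symm, zero_add]
  have h5 : ¬ (∃ j, ∑ i, w j i < (r j + 1 : ℚ)) → ∀ j, (r j + 1 : ℚ) ≤ ∑ i, w j i := fun h j => by
    by_contra h6
    exact h ⟨j, not_le.1 h6⟩
  have e0 : Effective x 0 := ⟨fun P _ => le_rfl, by simp⟩
  have i0 : Integral x 0 := fun P _ => ⟨0, by simp⟩
  refine ⟨?_, fun h => ?_⟩
  · tfae_have 1 → 3 := by
      intro h
      by_contra h6
      rw [(h4 (h5 h6)).1] at h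
      exact WithBot.coe_ne_bot h
    tfae_have 3 → 2 := fun h => (h2 h).2
    tfae_have 2 → 1 := by
      intro h
      by_contra h6
      have h7 := (h4 (h5 fun h8 => h6 (h2 h8).1)).2 0 e0 i0
      rw [h 0 e0] at h7
      exact EReal.coe_ne_bot _ h7.symm
    tfae_finish
  · exact h4 (h5 fun h6 => h (h2 h6).1)

end Pool.Agent.Results.MP_23b606_ag.ArrangementFibres
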